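import Pool.Agent.K7.H87.EX.Stm2

set_option autoImplicit false

/-! # Project EX2, job SOLV -/

namespace Pool.Agent.K7.H41.EXSOLV

open Pool.Agent.K7.H87.EX
open scoped commutatorElement

theorem t (hLev : StLev) (hDrop : StDrop) (hCom : StCom) (hInv : StInv) : StSolv := by
  intro K _ N hN _ hl hr hc hfin hcen
  obtain ⟨h0, hmul, hinv, hlt, M, hM⟩ := hLev N hl hr hfin
  have lev1 : lev (1 : N) = 0 := (h0 1).2 rfl
  have cmul : ∀ (g g' : K) (a : N), cj N hN (g * g') a = cj N hN g (cj N hN g' a) := by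
    intro g g' a
    apply Subtype.ext
    simp [cj, mul_assoc]
  have cone : ∀ a : N, cj N hN 1 a = a := by
    intro a
    apply Subtype.ext
    simp [cj]
  have chom : ∀ (g : K) (a b : N), cj N hN g (a * b) = cj N hN g a * cj N hN g b := by
    intro g a b
    apply Subtype.ext
    simp [cj, mul_assoc]
  have cone' : ∀ g : K, cj N hN g 1 = 1 := by
    intro g
    apply Subtype.ext
    simp [cj]
  have hdrop1 : ∀ g ∈ commutator K, ∀ (a : N) (j : ℕ), lev a ≤ j + 1 →
      lev (a⁻¹ * cj N hN g a) ≤ j := by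
    intro g hg a j ha
    by_cases h : a = 1
    · subst h
      rw [cone', inv_one, mul_one, lev1]
      exact Nat.zero_le _
    · have := hDrop K N hN hl hr hc hfin g hg a h
      omega
  have hcom1 : ∀ (u v : N) (j : ℕ), lev u ≤ j + 1 → lev v ≤ j + 1 →
      lev (u⁻¹ * v⁻¹ * u * v) ≤ j := by
    intro u v j hu hv
    by_cases hu1 : u = 1
    · subst hu1
      have : (1 : N)⁻¹ * v⁻¹ * 1 * v = 1 := by group
      rw [this, lev1]
      exact Nat.zero_le _
    by_cases hv1 : v = 1
    · subst hv1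
      have : u⁻¹ * (1 : N)⁻¹ * u * 1 = 1 := by group
      rw [this, lev1]
      exact Nat.zero_le _
    rcases le_total (lev v) (lev u) with h | h
    · have := hCom N hl hr hfin u v hu1 h
      omega
    · have h2 := hCom N hl hr hfin v u hv1 h
      have h3 : u⁻¹ * v⁻¹ * u * v = (v⁻¹ * u⁻¹ * v * u)⁻¹ := by group
      rw [h3, hinv]
      omega
  obtain ⟨H, hH⟩ : ∃ H : ℕ → Subgroup K, ∀ j g, g ∈ H j ↔
      ∀ a : N, lev (a⁻¹ * cj N hN g a) ≤ j := by
    refine ⟨fun j =>
      { carrier := {g | ∀ a : N, lev (a⁻¹ * cj N hN g a) ≤ j}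
        one_mem' := ?_
        mul_mem' := ?_
        inv_mem' := ?_ }, fun j g => Iff.rfl⟩
    · intro g g' hg hg' a
      have h1 : a⁻¹ * cj N hN (g * g') a =
          (a⁻¹ * cj N hN g' a) * ((cj N hN g' a)⁻¹ * cj N hN g (cj N hN g' a)) := by
        rw [cmul]
        group
      rw [h1]
      exact (hmul _ _).trans (max_le (hg' a) (hg _))
    · intro a
      rw [cone, inv_mul_cancel, lev1]
      exact Nat.zero_le _
    · intro g hg a
      have h1 := hg (cj N hN g⁻¹ a)
      rw [← cmul, mul_inv_cancel, cone] at h1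
      rw [← hinv, mul_inv_rev, inv_inv]
      exact h1
  have step : ∀ j, ∀ g ∈ commutator K, ∀ g' ∈ commutator K, g ∈ H (j + 1) → g' ∈ H (j + 1) →
      ⁅g, g'⁆ ∈ H j := by
    intro j g hgc g' hgc' hg hg'
    rw [hH] at hg hg' ⊢
    have key : ∀ a : N, lev ((cj N hN (g' * g) a)⁻¹ * cj N hN (g * g') a) ≤ j := by
      intro a
      obtain ⟨u, hu⟩ : ∃ u : N, u = a⁻¹ * cj N hN g a := ⟨_, rfl⟩
      obtain ⟨v, hv⟩ : ∃ v : N, v = a⁻¹ * cj N hN g' a := ⟨_, rfl⟩
      have hu' : cj N hN g a = a * u := by rw [hu]; group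
      have hv' : cj N hN g' a = a * v := by rw [hv]; group
      have hlu : lev u ≤ j + 1 := hu ▸ hg a
      have hlv : lev v ≤ j + 1 := hv ▸ hg' a
      have e : (cj N hN (g' * g) a)⁻¹ * cj N hN (g * g') a =
          (u⁻¹ * cj N hN g' u)⁻¹ * (u⁻¹ * v⁻¹ * u * v) * (v⁻¹ * cj N hN g v) := by
        rw [cmul, cmul, hu', hv', chom, chom, hu', hv']
        group
      rw [e]
      refine (hmul _ _).trans (max_le ((hmul _ _).trans (max_le ?_ ?_)) ?_)
      · rw [hinv]
        exact hdrop1 g' hgc' u j hlu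
      · exact hcom1 u v j hlu hlv
      · exact hdrop1 g hgc v j hlv
    intro a
    have h1 := key (cj N hN (g' * g)⁻¹ a)
    rw [← cmul, ← cmul, mul_inv_cancel, cone] at h1
    have h2 : g * g' * (g' * g)⁻¹ = ⁅g, g'⁆ := by
      rw [commutatorElement_def]
      group
    rw [h2] at h1
    exact h1
  have main : ∀ i, derivedSeries K (i + 1) ≤ H (M - (i + 1)) := by
    intro i
    induction i with
    | zero =>
      intro g hg
      rw [zero_add, derivedSeries_one] at hg
      rw [hH]
      intro a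
      rcases Nat.eq_zero_or_pos M with h | h
      · have h1 : a = 1 := (h0 a).1 (Nat.le_zero.1 (h ▸ hM a))
        subst h1
        rw [cone', inv_one, mul_one, lev1]
        exact Nat.zero_le _
      · exact hdrop1 g hg a _ ((hM a).trans (by omega))
    | succ i ih =>
      rw [derivedSeries_succ, Subgroup.commutator_le]
      intro g hg g' hg'
      have hsub : derivedSeries K (i + 1) ≤ commutator K := by
        rw [← derivedSeries_one]
        exact derivedSeries_antitone K (by omega)
      have h1 := ih hg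
      have h2 := ih hg'
      rcases Nat.eq_zero_or_pos (M - (i + 1)) with h | h
      · have h3 : M - (i + 1 + 1) = 0 := by omega
        rw [h] at h1 h2
        rw [h3, commutatorElement_def]
        exact (H 0).mul_mem ((H 0).mul_mem ((H 0).mul_mem h1 h2) ((H 0).inv_mem h1))
          ((H 0).inv_mem h2)
      · have h3 : M - (i + 1) = M - (i + 1 + 1) + 1 := by omega
        rw [h3] at h1 h2
        exact step _ g (hsub hg) g' (hsub hg') h1 h2
  have hcenter : derivedSeries K (M + 1) ≤ Subgroup.center K := by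
    intro g hg
    apply hcen
    intro a ha
    have h1 := (hH _ _).1 (main M hg) ⟨a, ha⟩
    have h2 : M - (M + 1) = 0 := by omega
    rw [h2] at h1
    have h3 := (h0 _).1 (Nat.le_zero.1 h1)
    have h4 : cj N hN g ⟨a, ha⟩ = ⟨a, ha⟩ := (inv_mul_eq_one.1 h3).symm
    have h5 : g * a * g⁻¹ = a := congrArg Subtype.val h4
    rw [mul_inv_eq_iff_eq_mul] at h5
    exact h5.symm
  refine ⟨⟨M + 1 + 1, ?_⟩⟩
  rw [derivedSeries_succ, eq_bot_iff, Subgroup.commutator_le]
  intro g hg g' _
  rw [Subgroup.mem_bot, commutatorElement_eq_one_iff_mul_comm]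
  exact (Subgroup.mem_center_iff.1 (hcenter hg) g').symm

end Pool.Agent.K7.H41.EXSOLV
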