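import Pool.Agent.K7.H41.IP_HEAVY

set_option autoImplicit false

/-! # Project IP, job C4U -/

namespace Pool.Agent.K7.H41.IP

open SimpleGraph Finset Pool.Agent.K7.H72.IP

/-- a Turan type bound: if all cliques in `N` have at most `s` vertices then there are many ordered
non-adjacent pairs (the diagonal included) -/
theorem tur {V : Type} [DecidableEq V] (G : SimpleGraph V) [DecidableRel G.Adj] (s : ℕ) :
    ∀ N : Finset V, (∀ S : Finset V, S ⊆ N → G.IsClique (S : Set V) → S.card ≤ s) →
      N.card ^ 2 ≤ s * ∑ y ∈ N, (N.filter fun z => ¬ G.Adj y z).card := by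
  induction s with
  | zero =>
    intro N hN
    rcases N.eq_empty_or_nonempty with rfl | ⟨x, hx⟩
    · simp
    · have := hN {x} (by simpa using hx) (by simp)
      simp at this
  | succ s ih =>
    intro N hN
    rcases N.eq_empty_or_nonempty with rfl | hne
    · simp
    obtain ⟨x, hx, hmin⟩ := Finset.exists_min_image N
      (fun y => (N.filter fun z => ¬ G.Adj y z).card) hne
    set k := (N.filter fun z => ¬ G.Adj x z).card with hk
    set N' := N.filter fun z => G.Adj x z with hN'
    have h1 := ih N' (by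
      intro S hS hc
      have hxS : x ∉ S := by
        intro hxS
        have := (Finset.mem_filter.1 (hS hxS)).2
        exact this.ne rfl
      have h2 := hN (insert x S) (by
        intro y hy
        rcases Finset.mem_insert.1 hy with rfl | hy
        · exact hx
        · exact (Finset.mem_filter.1 (hS hy)).1) (by
        rw [Finset.coe_insert]
        rw [SimpleGraph.isClique_insert]
        refine ⟨hc, ?_⟩
        intro y hy _
        exact (Finset.mem_filter.1 (hS hy)).2)
      rw [Finset.card_insert_of_notMem hxS] at h2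
      omega)
    set P' := ∑ y ∈ N', (N'.filter fun z => ¬ G.Adj y z).card with hP'
    have h2 : P' + k ^ 2 ≤ ∑ y ∈ N, (N.filter fun z => ¬ G.Adj y z).card := by
      rw [← Finset.sum_filter_add_sum_filter_not N (fun z => G.Adj x z)]
      apply add_le_add
      · apply Finset.sum_le_sum
        intro y _
        apply Finset.card_le_card
        intro z hz
        rw [Finset.mem_filter] at hz ⊢
        exact ⟨(Finset.mem_filter.1 hz.1).1, hz.2⟩
      · rw [pow_two]
        have := Finset.card_nsmul_le_sum (N.filter fun z => ¬ G.Adj x z)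
          (fun y => (N.filter fun z => ¬ G.Adj y z).card) k (fun y hy => hmin y (Finset.mem_filter.1 hy).1)
        simpa [← hk] using this
    have h3 : N.card = N'.card + k := (Finset.card_filter_add_card_filter_not _).symm
    refine le_trans ?_ (Nat.mul_le_mul_left _ h2)
    rw [h3]
    rcases Nat.eq_zero_or_pos s with rfl | hs
    · have h4 : N'.card = 0 := by
        simpa using h1
      rw [h4]
      simp
    · have h4 : s * (N'.card + k) ^ 2 ≤ (s + 1) * (s * k ^ 2 + N'.card ^ 2) := by
        zify
        nlinarith [sq_nonneg ((s : ℤ) * k - N'.card)]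
      have h5 : s * (N'.card + k) ^ 2 ≤ s * ((s + 1) * (P' + k ^ 2)) := by
        refine h4.trans ?_
        calc (s + 1) * (s * k ^ 2 + N'.card ^ 2) ≤ (s + 1) * (s * k ^ 2 + s * P') :=
              Nat.mul_le_mul_left _ (Nat.add_le_add_left h1 _)
          _ = s * ((s + 1) * (P' + k ^ 2)) := by ring
      exact Nat.le_of_mul_le_mul_left h5 hs

theorem clq {V : Type} (G : SimpleGraph V) {t : ℕ} (h : NoK t G) (S : Finset V)
    (hS : G.IsClique (S : Set V)) : S.card < 2 * t := by
  classical
  by_contra hcon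
  rw [not_lt] at hcon
  obtain ⟨T, hT, hTc⟩ := Finset.exists_subset_card_eq (show t ≤ S.card by omega)
  refine kk G h T (S \ T) hTc.ge ?_ ?_
  · rw [Finset.card_sdiff_of_subset hT]
    omega
  · intro u hu w hw
    rw [Finset.mem_sdiff] at hw
    refine hS (hT hu) hw.1 ?_
    rintro rfl
    exact hw.2 hu

theorem comm {V : Type} (G : SimpleGraph V) {t : ℕ}
    (hI : IsEmpty (completeBipartiteGraph (Fin 2) (Fin 2) ↪g G)) (h : NoK t G) (x y : V)
    (hxy : x ≠ y) (hn : ¬ G.Adj x y) (C : Finset V) (hC : ∀ w ∈ C, G.Adj x w ∧ G.Adj y w) :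
    C.card < 2 * t := by
  classical
  apply clq G h
  intro a ha b hb hab
  by_contra hnab
  apply hI.false
  have hxa := (hC a ha).1
  have hya := (hC a ha).2
  have hxb := (hC b hb).1
  have hyb := (hC b hb).2
  refine ⟨⟨Sum.elim ![x, y] ![a, b], ?_⟩, ?_⟩
  · rintro (i | i) (j | j) hij <;> fin_cases i <;> fin_cases j <;> simp at hij ⊢
    all_goals first
      | exact hxy hij
      | exact hxy hij.symm
      | exact hab hij
      | exact hab hij.symm
      | exact hxa.ne hij
      | exact hxb.ne hij
      | exact hya.ne hij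
      | exact hyb.ne hij
      | exact hxa.ne hij.symm
      | exact hxb.ne hij.symm
      | exact hya.ne hij.symm
      | exact hyb.ne hij.symm
  · intro i j
    change G.Adj (Sum.elim ![x, y] ![a, b] i) (Sum.elim ![x, y] ![a, b] j) ↔ _
    have hn' : ¬ G.Adj y x := fun h => hn h.symm
    have hnab' : ¬ G.Adj b a := fun h => hnab h.symm
    rcases i with i | i <;> rcases j with j | j <;> fin_cases i <;> fin_cases j <;>
      simp [hn, hn', hnab, hnab', hxa, hxb, hya, hyb, hxa.symm, hxb.symm, hya.symm, hyb.symm]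

theorem nineq {t n e : ℕ} (h : (2 * e) ^ 2 ≤ n * (2 * t * (2 * e + 2 * t * n ^ 2))) :
    (e : ℝ) ≤ 2 * t * (n : ℝ) ^ (3 / 2 : ℝ) := by
  have hn0 : (0 : ℝ) ≤ n := Nat.cast_nonneg n
  have hX0 : (0 : ℝ) ≤ (n : ℝ) ^ (3 / 2 : ℝ) := Real.rpow_nonneg hn0 _
  have hX2 : ((n : ℝ) ^ (3 / 2 : ℝ)) ^ 2 = (n : ℝ) ^ 3 := by
    rw [← Real.rpow_natCast, ← Real.rpow_mul hn0]
    norm_num
  have hXn : (n : ℝ) ≤ (n : ℝ) ^ (3 / 2 : ℝ) := by
    rcases Nat.eq_zero_or_pos n with rfl | hn
    · simp
    · have h1 : (1 : ℝ) ≤ n := by exact_mod_cast hn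
      calc (n : ℝ) = (n : ℝ) ^ (1 : ℝ) := (Real.rpow_one _).symm
        _ ≤ _ := Real.rpow_le_rpow_of_exponent_le h1 (by norm_num)
  set X := (n : ℝ) ^ (3 / 2 : ℝ) with hX
  have h' : (2 * (e : ℝ)) ^ 2 ≤ n * (2 * t * (2 * e + 2 * t * (n : ℝ) ^ 2)) := by exact_mod_cast h
  have ht0 : (0 : ℝ) ≤ t := Nat.cast_nonneg t
  have he0 : (0 : ℝ) ≤ e := Nat.cast_nonneg e
  have h1 : (e : ℝ) ^ 2 ≤ t * n * e + t ^ 2 * X ^ 2 := by
    rw [hX2]
    nlinarith
  have h2 : (e : ℝ) ^ 2 ≤ t * X * e + t ^ 2 * X ^ 2 := by
    have : (t : ℝ) * n * e ≤ t * X * e :=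
      mul_le_mul_of_nonneg_right (mul_le_mul_of_nonneg_left hXn ht0) he0
    linarith
  by_contra hcon
  rw [not_le] at hcon
  have hY0 : 0 ≤ (t : ℝ) * X := mul_nonneg ht0 hX0
  nlinarith [mul_nonneg hY0 he0, mul_nonneg hY0 hY0]

theorem c4u : StC4U := by
  classical
  intro t ht
  refine ⟨2 * t, ?_⟩
  intro n G hI hK
  have hE : G.edgeSet.ncard = G.edgeFinset.card := by
    rw [Set.ncard_eq_toFinset_card']
    rfl
  rw [hE]
  apply nineq
  have hs : ∑ v, G.degree v = 2 * G.edgeFinset.card := G.sum_degrees_eq_twice_card_edges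
  rw [← hs]
  have h1 : (∑ v, G.degree v) ^ 2 ≤ n * ∑ v, G.degree v ^ 2 := by
    have := sq_sum_le_card_mul_sum_sq (s := (Finset.univ : Finset (Fin n))) (f := fun v => G.degree v)
    simpa using this
  refine h1.trans (Nat.mul_le_mul_left _ ?_)
  have h2 : ∀ v, G.degree v ^ 2 ≤ 2 * t * ∑ y ∈ G.neighborFinset v,
      ((G.neighborFinset v).filter fun z => ¬ G.Adj y z).card := by
    intro v
    rw [← G.card_neighborFinset_eq_degree v]
    apply tur G
    intro S _ hS
    exact (clq G hK S hS).le
  refine (Finset.sum_le_sum fun v _ => h2 v).trans ?_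
  rw [← Finset.mul_sum]
  refine Nat.mul_le_mul_left _ ?_
  have h3 : ∑ v, ∑ y ∈ G.neighborFinset v, ((G.neighborFinset v).filter fun z => ¬ G.Adj y z).card =
      ∑ y, ∑ z, if G.Adj y z then 0 else ((Finset.univ.filter fun v => G.Adj y v ∧ G.Adj z v).card) := by
    have h4 : ∀ v, ∑ y ∈ G.neighborFinset v, ((G.neighborFinset v).filter fun z => ¬ G.Adj y z).card =
        ∑ y, ∑ z, if G.Adj y z then 0 else (if G.Adj y v ∧ G.Adj z v then 1 else 0) := by
      intro v
      rw [G.neighborFinset_eq_filter, Finset.sum_filter]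
      apply Finset.sum_congr rfl
      intro y _
      by_cases hy : G.Adj v y
      · rw [if_pos hy, Finset.card_filter, Finset.sum_filter]
        apply Finset.sum_congr rfl
        intro z _
        by_cases hz : G.Adj v z <;> by_cases hyz : G.Adj y z <;>
          simp [hy.symm, hz, hyz, G.adj_comm z v]
      · rw [if_neg hy]
        symm
        apply Finset.sum_eq_zero
        intro z _
        have : ¬ G.Adj y v := fun h => hy h.symm
        simp [this]
    rw [Finset.sum_congr rfl fun v _ => h4 v, Finset.sum_comm]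
    apply Finset.sum_congr rfl
    intro y _
    rw [Finset.sum_comm]
    apply Finset.sum_congr rfl
    intro z _
    by_cases hyz : G.Adj y z
    · simp [hyz]
    · simp only [hyz, if_false]
      exact (Finset.card_filter _ _).symm
  rw [h3]
  have h5 : ∀ y, (∑ z, if G.Adj y z then 0 else
      ((Finset.univ.filter fun v => G.Adj y v ∧ G.Adj z v).card)) ≤ G.degree y + 2 * t * n := by
    intro y
    rw [← Finset.add_sum_erase _ _ (Finset.mem_univ y)]
    apply add_le_add
    · simp only [SimpleGraph.irrefl, if_false, and_self]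
      rw [← G.card_neighborFinset_eq_degree y, G.neighborFinset_eq_filter]
    · refine (Finset.sum_le_card_nsmul _ _ (2 * t) ?_).trans ?_
      · intro z hz
        by_cases hyz : G.Adj y z
        · simp [hyz]
        · rw [if_neg hyz]
          refine (comm G hI hK y z (Finset.ne_of_mem_erase hz).symm hyz _ ?_).le
          intro w hw
          exact (Finset.mem_filter.1 hw).2
      · rw [smul_eq_mul, mul_comm]
        refine Nat.mul_le_mul_left _ ?_
        refine (Finset.card_le_univ _).trans ?_
        simp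
  refine (Finset.sum_le_sum fun y _ => h5 y).trans ?_
  rw [Finset.sum_add_distrib]
  simp
  ring_nf
  exact le_refl _

end Pool.Agent.K7.H41.IP
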