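import Pool.Agent.K7.H72.IP.Stm

set_option autoImplicit false

/-! # Project IP, job HEAVY -/

namespace Pool.Agent.K7.H41.IP

open SimpleGraph Finset Pool.Agent.K7.H72.IP

theorem kk {V : Type} (G : SimpleGraph V) {t : ℕ} (h : NoK t G) (T F : Finset V) (hT : t ≤ T.card)
    (hF : t ≤ F.card) (hadj : ∀ u ∈ T, ∀ w ∈ F, G.Adj u w) : False := by
  obtain ⟨T', hT1, hT2⟩ := Finset.exists_subset_card_eq hT
  obtain ⟨F', hF1, hF2⟩ := Finset.exists_subset_card_eq hF
  let f : Fin t → V := fun i => ((T'.equivFinOfCardEq hT2).symm i : V)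
  let g : Fin t → V := fun i => ((F'.equivFinOfCardEq hF2).symm i : V)
  have hf : Function.Injective f := Subtype.val_injective.comp (Equiv.injective _)
  have hg : Function.Injective g := Subtype.val_injective.comp (Equiv.injective _)
  have hfg : ∀ i j, G.Adj (f i) (g j) := fun i j =>
    hadj _ (hT1 ((T'.equivFinOfCardEq hT2).symm i).2) _ (hF1 ((F'.equivFinOfCardEq hF2).symm j).2)
  apply h
  refine ⟨⟨⟨Sum.elim f g, ?_⟩, ?_⟩⟩
  · rintro (a | a) (b | b) hab
    · simp at hab
    · exact hfg a b
    · exact (hfg b a).symm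
    · simp at hab
  · rintro (a | a) (b | b) hab
    · exact congrArg Sum.inl (hf hab)
    · exact ((hfg a b).ne hab).elim
    · exact ((hfg b a).ne hab.symm).elim
    · exact congrArg Sum.inr (hg hab)

theorem heavy : StHeavy := by
  classical
  intro t h ht hh n G hK v hd
  by_contra hcon
  rw [not_le] at hcon
  set m := 4 * h * t with hm
  have hm0 : 0 < m := by positivity
  set U : Finset (Fin n) := Finset.univ.filter fun u => dg G v ≤ 2 * h * cn G u v with hU
  have hUc : m ≤ U.card := by
    rw [← Set.ncard_coe_finset]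
    refine hcon.le.trans (le_of_eq ?_)
    congr 1
    ext u
    simp [hU]
  obtain ⟨U0, hU1, hU2⟩ := Finset.exists_subset_card_eq hUc
  set N : Finset (Fin n) := Finset.univ.filter fun w => G.Adj v w with hN
  have hNc : N.card = dg G v := by
    unfold dg
    rw [← Set.ncard_coe_finset]
    congr 1
    ext u
    simp [hN]
  have hcn : ∀ u, cn G u v = (N.filter fun w => G.Adj u w).card := by
    intro u
    unfold cn
    rw [← Set.ncard_coe_finset]
    congr 1
    ext w
    simp [hN, and_comm]
  -- double counting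
  have h1 : ∑ w ∈ N, (U0.filter fun u => G.Adj u w).card = ∑ u ∈ U0, cn G u v := by
    simp_rw [hcn, Finset.card_filter]
    exact Finset.sum_comm
  have h2 : m * dg G v ≤ 2 * h * ∑ w ∈ N, (U0.filter fun u => G.Adj u w).card := by
    rw [h1, Finset.mul_sum]
    calc m * dg G v = ∑ u ∈ U0, dg G v := by rw [Finset.sum_const, hU2, smul_eq_mul]
      _ ≤ _ := Finset.sum_le_sum fun u hu => (Finset.mem_filter.1 (hU1 hu)).2
  set W := N.filter fun w => t ≤ (U0.filter fun u => G.Adj u w).card with hW
  have h3 : ∑ w ∈ N, (U0.filter fun u => G.Adj u w).card ≤ W.card * m + dg G v * t := by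
    rw [← Finset.sum_filter_add_sum_filter_not N (fun w => t ≤ (U0.filter fun u => G.Adj u w).card)]
    apply add_le_add
    · rw [← smul_eq_mul]
      apply Finset.sum_le_card_nsmul
      intro w _
      rw [← hU2]
      exact Finset.card_filter_le _ _
    · refine (Finset.sum_le_card_nsmul _ _ t ?_).trans ?_
      · intro w hw
        exact (not_le.1 (Finset.mem_filter.1 hw).2).le
      · rw [smul_eq_mul, ← hNc]
        exact Nat.mul_le_mul_right _ (Finset.card_filter_le _ _)
  have h4 : t * dg G v ≤ W.card * m := by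
    have h5 : m * dg G v ≤ 2 * h * (W.card * m + dg G v * t) := h2.trans (Nat.mul_le_mul_left _ h3)
    have h6 : m * dg G v = 2 * h * (2 * (t * dg G v)) := by
      rw [hm]; ring
    rw [h6] at h5
    have h7 := Nat.le_of_mul_le_mul_left h5 (by positivity)
    have h8 : dg G v * t = t * dg G v := mul_comm _ _
    omega
  have h5 : 2 ^ m * t ≤ W.card := by
    have h6 : m * (2 ^ m * t) ≤ m * W.card := by
      calc m * (2 ^ m * t) = t * (m * 2 ^ m) := by ring
        _ ≤ t * dg G v := Nat.mul_le_mul_left _ hd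
        _ ≤ W.card * m := h4
        _ = m * W.card := mul_comm _ _
    exact Nat.le_of_mul_le_mul_left h6 hm0
  have h6 : ∀ w ∈ W, ∃ T ⊆ U0.filter (fun u => G.Adj u w), T.card = t := fun w hw =>
    Finset.exists_subset_card_eq (Finset.mem_filter.1 hw).2
  choose! T hT1 hT2 using h6
  have h7 : ∀ w ∈ W, T w ∈ U0.powerset := fun w hw =>
    Finset.mem_powerset.2 ((hT1 w hw).trans (Finset.filter_subset _ _))
  have h8 : U0.powerset.card * t ≤ W.card := by
    rw [Finset.card_powerset, hU2]
    exact h5
  have hne : U0.powerset.Nonempty := ⟨∅, Finset.empty_mem_powerset _⟩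
  obtain ⟨T0, hT0, hf⟩ := Finset.exists_le_card_fiber_of_mul_le_card_of_maps_to h7 hne h8
  have hpos : 0 < (W.filter fun w => T w = T0).card := lt_of_lt_of_le ht hf
  obtain ⟨w0, hw0⟩ := Finset.card_pos.1 hpos
  have hw0' := Finset.mem_filter.1 hw0
  refine kk G hK T0 (W.filter fun w => T w = T0) ?_ hf ?_
  · rw [← hw0'.2, hT2 _ hw0'.1]
  · intro u hu w hw
    have hw' := Finset.mem_filter.1 hw
    rw [← hw'.2] at hu
    exact (Finset.mem_filter.1 (hT1 w hw'.1 hu)).2

end Pool.Agent.K7.H41.IP
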