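import Pool.Agent.K7.H41.IP_C4U
import Pool.Agent.K7.H72.IP.Stm2
import Pool.Agent.H265R2.CritP4

set_option autoImplicit false

/-! # Project IP, job KA1 -/

namespace Pool.Agent.K7.H41.IP

open SimpleGraph Finset Pool.Agent.K7.H72.IP

theorem ka1 : StKA1 := by
  classical
  intro n G t a ht ha hK N
  set R := 2 ^ (2 * t + a) with hR
  have haR : a ≤ R := by
    have := (Nat.lt_two_pow_self (n := 2 * t + a)).le
    omega
  set I : Finset (Finset (Fin n)) :=
    (N.powersetCard a).filter fun A => ∀ x ∈ A, ∀ y ∈ A, ¬ G.Adj x y with hI'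
  have hI : {A : Finset (Fin n) | A ⊆ N ∧ A.card = a ∧
      ∀ x ∈ A, ∀ y ∈ A, ¬ G.Adj x y}.ncard = I.card := by
    rw [← Set.ncard_coe_finset]
    congr 1
    ext A
    simp only [hI', Set.mem_ofPred_eq, Finset.coe_filter, Finset.mem_powersetCard, and_assoc]
  rw [hI]
  rcases le_total N.card R with h | h
  · calc N.card.choose a ≤ R.choose a := Nat.choose_le_choose a h
      _ = 1 * R.choose a := (one_mul _).symm
      _ ≤ _ := Nat.mul_le_mul_right _ (by omega)
  · have h3 : ∀ A ∈ I, ((N.powersetCard R).filter fun S => A ⊆ S).card ≤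
        (N.card - a).choose (R - a) := by
      intro A hA
      have hA' := Finset.mem_powersetCard.1 (Finset.mem_filter.1 hA).1
      have h5 : (N.card - a).choose (R - a) = ((N \ A).powersetCard (R - a)).card := by
        rw [Finset.card_powersetCard, Finset.card_sdiff_of_subset hA'.1, hA'.2]
      rw [h5]
      apply Finset.card_le_card_of_injOn (fun S => S \ A)
      · intro S hS
        rw [Finset.mem_coe, Finset.mem_filter, Finset.mem_powersetCard] at hS
        rw [Finset.mem_coe, Finset.mem_powersetCard]
        refine ⟨Finset.sdiff_subset_sdiff hS.1.1 (le_refl _), ?_⟩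
        rw [Finset.card_sdiff_of_subset hS.2, hS.1.2, hA'.2]
      · intro S hS S' hS' he
        rw [Finset.mem_coe, Finset.mem_filter] at hS hS'
        have he' : S \ A = S' \ A := he
        rw [← Finset.sdiff_union_of_subset hS.2, ← Finset.sdiff_union_of_subset hS'.2, he']
    have h1 : N.card.choose R ≤ I.card * (N.card - a).choose (R - a) := by
      rw [← Finset.card_powersetCard]
      refine le_trans (Finset.card_le_card ?_)
        (Finset.card_biUnion_le_card_mul I (fun A => (N.powersetCard R).filter fun S => A ⊆ S) _ h3)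
      intro S hS
      have hS' := Finset.mem_powersetCard.1 hS
      rcases Pool.Agent.H265R2.CritP4.ramsey G (2 * t + a) (2 * t) a le_rfl S hS'.2.ge with
        ⟨T, hT, hTc, hTa⟩ | ⟨T, hT, hTc, hTa⟩
      · exfalso
        have := clq G hK T (fun x hx y hy hxy => hTa x hx y hy hxy)
        omega
      · refine Finset.mem_biUnion.2 ⟨T, ?_, Finset.mem_filter.2 ⟨hS, hT⟩⟩
        exact Finset.mem_filter.2 ⟨Finset.mem_powersetCard.2 ⟨hT.trans hS'.1, hTc⟩, hTa⟩
    have h4 : N.card.choose R * R.choose a = N.card.choose a * (N.card - a).choose (R - a) :=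
      Nat.choose_mul haR
    have hpos : 0 < (N.card - a).choose (R - a) := Nat.choose_pos (by omega)
    have h6 : N.card.choose a * (N.card - a).choose (R - a) ≤
        (I.card * R.choose a) * (N.card - a).choose (R - a) := by
      rw [← h4]
      calc N.card.choose R * R.choose a ≤ (I.card * (N.card - a).choose (R - a)) * R.choose a :=
            Nat.mul_le_mul_right _ h1
        _ = _ := by ring
    exact (Nat.le_of_mul_le_mul_right h6 hpos).trans (Nat.mul_le_mul_right _ (by omega))

end Pool.Agent.K7.H41.IP
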